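import Mathlib
import Pool.Agent.H397R2.BM

/-! The converse: bounded sequences constant along Collatz orbits give solutions of the Berg-Meinardus
equation. -/

set_option autoImplicit false

open Filter Topology Set

namespace Pool.Agent.X108.BM

open Pool.Agent.H397R2

/-- the power series with the coefficients `c` -/
noncomputable def gen (c : ℕ → ℂ) (z : ℂ) : ℂ := ∑' n, c n * z ^ n

lemma gen_hasSum {c : ℕ → ℂ} {M : ℝ} (hM : ∀ n, ‖c n‖ ≤ M) {z : ℂ} (hz : ‖z‖ < 1) :
    HasSum (fun n => c n * z ^ n) (gen c z) := by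
  refine Summable.hasSum (Summable.of_norm_bounded (g := fun n => M * ‖z‖ ^ n) ?_ fun n => ?_)
  · exact (summable_geometric_of_lt_one (norm_nonneg _) hz).mul_left M
  · rw [norm_mul, norm_pow]
    exact mul_le_mul_of_nonneg_right (hM n) (by positivity)

lemma gen_diff {c : ℕ → ℂ} {M : ℝ} (hM : ∀ n, ‖c n‖ ≤ M) :
    DifferentiableOn ℂ (gen c) (Metric.ball 0 1) := by
  intro z hz
  rw [mem_ball_zero_iff] at hz
  obtain ⟨ρ, h1, h2⟩ := exists_between hz
  have hρ0 : 0 ≤ ρ := (norm_nonneg z).trans h1.le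
  have hd : DifferentiableOn ℂ (gen c) (Metric.ball 0 ρ) := by
    refine Complex.differentiableOn_tsum_of_summable_norm (u := fun n => M * ρ ^ n)
      ((summable_geometric_of_lt_one hρ0 h2).mul_left M) (fun n => ?_) Metric.isOpen_ball
      (fun n w hw => ?_)
    · fun_prop
    · rw [mem_ball_zero_iff] at hw
      have hM0 : 0 ≤ M := (norm_nonneg _).trans (hM 0)
      rw [norm_mul, norm_pow]
      exact mul_le_mul (hM n) (pow_le_pow_left₀ (norm_nonneg _) hw.le n) (by positivity) hM0
  exact (hd.differentiableAt (Metric.isOpen_ball.mem_nhds (by rwa [mem_ball_zero_iff]))).differentiableWithinAt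

lemma gen_tc {c : ℕ → ℂ} {M : ℝ} (hM : ∀ n, ‖c n‖ ≤ M) (n : ℕ) : tc (gen c) n = c n := by
  have h := coeff_zero (e := fun n => tc (gen c) n - c n) (fun w _ hw => by
    have h1 := (hasSum_tc (gen_diff hM) hw).sub (gen_hasSum hM hw)
    rw [sub_self] at h1
    refine hs_congr h1 fun n => ?_
    ring) n
  exact sub_eq_zero.1 h

lemma gen_solves {c : ℕ → ℂ} {M : ℝ} (hM : ∀ n, ‖c n‖ ≤ M) (hc : CInv c) {z : ℂ} (hz : ‖z‖ < 1) :
    3 * z * (gen c (z ^ 3) - gen c (z ^ 6)) =
      gen c (z ^ 2) + om * gen c (om * z ^ 2) + om ^ 2 * gen c (om ^ 2 * z ^ 2) := by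
  have hom : ‖om‖ = 1 := by
    have := om_prim.norm'_eq_one (by norm_num)
    exact this
  have hp : ∀ k : ℕ, 1 ≤ k → ‖z ^ k‖ < 1 := fun k hk => by
    rw [norm_pow]
    exact pow_lt_one₀ (norm_nonneg _) hz (by omega)
  have s3 := gen_hasSum hM (hp 3 (by norm_num))
  have s6 := gen_hasSum hM (hp 6 (by norm_num))
  have s2 := gen_hasSum hM (hp 2 (by norm_num))
  have s2' := gen_hasSum hM (z := om * z ^ 2) (by rw [norm_mul, hom, one_mul]; exact hp 2 (by norm_num))
  have s2'' := gen_hasSum hM (z := om ^ 2 * z ^ 2)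
    (by rw [norm_mul, norm_pow, hom, one_pow, one_mul]; exact hp 2 (by norm_num))
  -- the right-hand side
  have hR : HasSum (fun n : ℕ => if n % 3 = 2 then 3 * c n * (z ^ 2) ^ n else 0)
      (gen c (z ^ 2) + om * gen c (om * z ^ 2) + om ^ 2 * gen c (om ^ 2 * z ^ 2)) := by
    refine hs_congr ((s2.add (s2'.mul_left om)).add (s2''.mul_left (om ^ 2))) fun n => ?_
    have h := om_factor n
    have e : c n * (z ^ 2) ^ n + om * (c n * (om * z ^ 2) ^ n) + om ^ 2 * (c n * (om ^ 2 * z ^ 2) ^ n) =
        c n * (z ^ 2) ^ n * (1 + om ^ (n + 1) + om ^ (2 * n + 2)) := by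
      rw [mul_pow, mul_pow, ← pow_mul om 2 n]
      ring
    rw [e, h]
    split_ifs
    · ring
    · rw [mul_zero]
  have hinj3 : Function.Injective (fun k : ℕ => 3 * k + 2) := fun a b hab => by
    simp only at hab; omega
  have hR' : HasSum (fun k : ℕ => 3 * c (3 * k + 2) * (z ^ 2) ^ (3 * k + 2))
      (gen c (z ^ 2) + om * gen c (om * z ^ 2) + om ^ 2 * gen c (om ^ 2 * z ^ 2)) := by
    rw [← hinj3.hasSum_iff] at hR
    · refine hs_congr hR fun k => ?_
      simp only [Function.comp_apply]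
      rw [if_pos (by omega)]
    · intro n hn
      rw [if_neg]
      intro h
      exact hn ⟨n / 3, by simp only; omega⟩
  -- the left-hand side
  have hinj2 : Function.Injective (fun k : ℕ => 2 * k) := fun a b hab => by
    simp only at hab; omega
  have hinj2' : Function.Injective (fun k : ℕ => 2 * k + 1) := fun a b hab => by
    simp only at hab; omega
  have hG : HasSum (fun n : ℕ => if n % 2 = 0 then c n * (z ^ 3) ^ n else 0) (gen c (z ^ 6)) := by
    rw [← hinj2.hasSum_iff]
    · refine hs_congr s6 fun k => ?_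
      simp only [Function.comp_apply]
      rw [if_pos (by omega), hc.even]
      congr 1
      rw [← pow_mul, ← pow_mul]
      congr 1
      ring
    · intro n hn
      rw [if_neg]
      intro h
      exact hn ⟨n / 2, by simp only; omega⟩
  have hL : HasSum (fun n : ℕ => if n % 2 = 0 then 0 else 3 * z * (c n * (z ^ 3) ^ n))
      (3 * z * (gen c (z ^ 3) - gen c (z ^ 6))) := by
    refine hs_congr ((s3.sub hG).mul_left (3 * z)) fun n => ?_
    split_ifs
    · ring
    · ring
  have hL' : HasSum (fun k : ℕ => 3 * z * (c (2 * k + 1) * (z ^ 3) ^ (2 * k + 1)))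
      (3 * z * (gen c (z ^ 3) - gen c (z ^ 6))) := by
    rw [← hinj2'.hasSum_iff] at hL
    · refine hs_congr hL fun k => ?_
      simp only [Function.comp_apply]
      rw [if_neg (by omega)]
    · intro n hn
      rw [if_pos]
      by_contra h
      exact hn ⟨n / 2, by simp only; omega⟩
  refine hL'.unique (hs_congr hR' fun k => ?_)
  rw [← hc.odd k]
  have : (z ^ 2) ^ (3 * k + 2) = z * (z ^ 3) ^ (2 * k + 1) := by
    rw [← pow_mul, ← pow_mul, ← pow_succ']
    congr 1
    ring
  rw [this]
  ring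

end Pool.Agent.X108.BM
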