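import Mathlib
import Pool.Agent.H397R2.Loc

/-! Parseval's identity for power series on a circle. -/

set_option autoImplicit false

open Filter Topology Set MeasureTheory

namespace Pool.Agent.X108.BM

open Pool.Agent.H397R2

lemma fc_ser {f : ℕ → ℂ} {r : ℝ} (hr : 0 ≤ r) (hf : Summable fun n => ‖f n‖ * r ^ n)
    (n : ℤ) : fourierCoeffOn (Real.two_pi_pos) (ser f r) n =
      if 0 ≤ n then f n.toNat * (r : ℂ) ^ n.toNat else 0 := by
  split_ifs with hn
  · obtain ⟨k, rfl⟩ := Int.eq_ofNat_of_zero_le hn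
    rw [fourierCoeffOn_ser hr hf k]
    rfl
  · rw [fourierCoeffOn_eq_integral]
    have hterm : ∀ (m : ℕ) (x : ℝ), (fourier (-n) (x : AddCircle (2 * Real.pi - 0)) : ℂ) •
        (f m * (cp r x) ^ m) = f m * (r : ℂ) ^ m * Complex.exp (((m : ℂ) - n) * Complex.I * x) := by
      intro m x
      rw [fourier_coe_apply, smul_eq_mul, cp, mul_pow, ← Complex.exp_nat_mul]
      have h1 : (2 : ℂ) * Real.pi * Complex.I * ((-n : ℤ) : ℂ) * x / ((2 * Real.pi - 0 : ℝ) : ℂ)
          = -(n : ℂ) * Complex.I * x := by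
        have : (Real.pi : ℂ) ≠ 0 := by exact_mod_cast Real.pi_ne_zero
        push_cast
        rw [sub_zero]
        field_simp
      rw [h1]
      have h2 : Complex.exp (((m : ℂ) - n) * Complex.I * x) =
          Complex.exp (-(n : ℂ) * Complex.I * x) * Complex.exp ((m : ℂ) * (x * Complex.I)) := by
        rw [← Complex.exp_add]; congr 1; ring
      rw [h2]; ring
    have hsum : HasSum (fun m : ℕ => ∫ x in (0 : ℝ)..(2 * Real.pi),
        (fourier (-n) (x : AddCircle (2 * Real.pi - 0)) : ℂ) • (f m * (cp r x) ^ m))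
        (∫ x in (0 : ℝ)..(2 * Real.pi),
          (fourier (-n) (x : AddCircle (2 * Real.pi - 0)) : ℂ) • ser f r x) := by
      refine intervalIntegral.hasSum_integral_of_dominated_convergence
        (fun m _ => ‖f m‖ * r ^ m) (fun m => ?_) (fun m => ?_) ?_ ?_ ?_
      · apply Continuous.aestronglyMeasurable
        simp_rw [hterm]
        fun_prop
      · filter_upwards with x _
        rw [norm_smul, norm_term hr, fourier_coe_apply]
        have : ‖Complex.exp (2 * (Real.pi : ℂ) * Complex.I * ((-n : ℤ) : ℂ) * x /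
            ((2 * Real.pi - 0 : ℝ) : ℂ))‖ = 1 := by
          have e : 2 * (Real.pi : ℂ) * Complex.I * ((-n : ℤ) : ℂ) * x /
            ((2 * Real.pi - 0 : ℝ) : ℂ) = ((-(n : ℝ) * x : ℝ) : ℂ) * Complex.I := by
            have : (Real.pi : ℂ) ≠ 0 := by exact_mod_cast Real.pi_ne_zero
            push_cast
            rw [sub_zero]
            field_simp
          rw [e, Complex.norm_exp_ofReal_mul_I]
        rw [this, one_mul]
      · filter_upwards with x _
        exact hf
      · exact continuous_const.intervalIntegrable _ _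
      · filter_upwards with x _
        exact (hasSum_ser hr hf x).const_smul _
    have hint : ∀ m : ℕ, ∫ x in (0 : ℝ)..(2 * Real.pi),
        (fourier (-n) (x : AddCircle (2 * Real.pi - 0)) : ℂ) • (f m * (cp r x) ^ m) = 0 := by
      intro m
      simp_rw [hterm]
      rw [intervalIntegral.integral_const_mul, integral_exp_mul_complex]
      · have e1 : Complex.exp (((m : ℂ) - n) * Complex.I * ((2 * Real.pi : ℝ) : ℂ)) = 1 := by
          rw [Complex.exp_eq_one_iff]
          exact ⟨(m : ℤ) - n, by push_cast; ring⟩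
        rw [e1]; simp
      · apply mul_ne_zero _ Complex.I_ne_zero
        rw [sub_ne_zero]
        intro h
        have : (m : ℤ) = n := by exact_mod_cast h
        omega
    simp_rw [hint] at hsum
    rw [← hasSum_zero.unique hsum, smul_zero]

/-- Parseval's identity -/
lemma parseval_ser {f : ℕ → ℂ} {r : ℝ} (hr : 0 ≤ r) (hf : Summable fun n => ‖f n‖ * r ^ n) :
    HasSum (fun n : ℕ => ‖f n‖ ^ 2 * (r ^ 2) ^ n)
      ((2 * Real.pi)⁻¹ * ∫ θ in (0 : ℝ)..(2 * Real.pi), ‖ser f r θ‖ ^ 2) := by
  have hcont := continuous_ser hr hf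
  have hL2 : MemLp (ser f r) 2 (volume.restrict (Ioc 0 (2 * Real.pi))) := by
    refine MemLp.of_bound hcont.aestronglyMeasurable (∑' n, ‖f n‖ * r ^ n) ?_
    filter_upwards with θ
    exact norm_ser_le hr hf θ
  have h := hasSum_sq_fourierCoeffOn Real.two_pi_pos hL2
  rw [sub_zero, smul_eq_mul] at h
  have hinj : Function.Injective (fun k : ℕ => (k : ℤ)) := Nat.cast_injective
  rw [← hinj.hasSum_iff] at h
  · convert h using 1
    funext n
    show _ = ‖fourierCoeffOn Real.two_pi_pos (ser f r) ((n : ℕ) : ℤ)‖ ^ 2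
    rw [fourierCoeffOn_ser hr hf, norm_mul, norm_pow, Complex.norm_real, Real.norm_eq_abs,
      abs_of_nonneg hr]
    ring
  · intro x hx
    rw [fc_ser hr hf, if_neg, norm_zero]
    · norm_num
    · intro h0
      exact hx ⟨x.toNat, by simp [h0]⟩

end Pool.Agent.X108.BM
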