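import Mathlib
import Pool.Agent.H723R2.BMGrow
import Pool.Agent.H499R2.NDBM
import Pool.Agent.X108.BM.Pars
import Pool.Agent.X108.BM.Conv

/-! Means and quadratic means of the solutions of the Berg-Meinardus equation. -/

set_option autoImplicit false

open Filter Topology Set MeasureTheory

namespace Pool.Agent.X108.BM

open Pool.Agent.H397R2

lemma cinv_Tn {c : ℕ → ℂ} (hc : CInv c) (n : ℕ) : c n = c (Pool.Agent.H366R2.PDK.Tn n) := by
  unfold Pool.Agent.H366R2.PDK.Tn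
  split_ifs with h
  · obtain ⟨k, rfl⟩ : ∃ k, n = 2 * k := ⟨n / 2, by omega⟩
    rw [hc.even]
    congr 1
    omega
  · obtain ⟨k, rfl⟩ : ∃ k, n = 2 * k + 1 := ⟨n / 2, by omega⟩
    rw [← hc.odd]
    congr 1
    omega

/-- bounded coefficients, Abel limits of the second moment -/
lemma quadratic {h : ℂ → ℂ} (hd : DifferentiableOn ℂ h (Metric.ball 0 1)) (hc : CInv (tc h))
    {M : ℝ} (hM : ∀ n, 1 ≤ n → ‖tc h n‖ ≤ M) :
    ∃ (m : ℂ) (V : ℝ),
      Tendsto (fun r : ℝ => (1 - (r : ℂ)) * h r) (𝓝[<] (1 : ℝ)) (𝓝 m) ∧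
      Tendsto (fun r : ℝ => (1 - r ^ 2) * ((2 * Real.pi)⁻¹ *
        ∫ θ in (0 : ℝ)..(2 * Real.pi), ‖h (cp r θ)‖ ^ 2)) (𝓝[<] (1 : ℝ)) (𝓝 V) ∧
      ‖m‖ ^ 2 ≤ V ∧ V ≤ M ^ 2 ∧ (V = ‖m‖ ^ 2 ↔ ∀ n, 1 ≤ n → tc h n = m) := by
  set M' := max M ‖tc h 0‖ with hM'
  have hb : ∀ n, ‖tc h n‖ ≤ M' := fun n => by
    rcases Nat.eq_zero_or_pos n with rfl | hn
    · exact le_max_right _ _
    · exact (hM n hn).trans (le_max_left _ _)
  have hM0 : 0 ≤ M := (norm_nonneg _).trans (hM 1 le_rfl)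
  obtain ⟨m, V, h1, h2, h3, h4⟩ := Pool.Agent.H499R2.ND.quad_means hb
    (fun n _ => cinv_Tn hc n)
  have hev : ∀ᶠ r : ℝ in 𝓝[<] (1 : ℝ), 1 / 2 < r ∧ r < 1 := Pool.Agent.H723R2.BMGrow.ev_near
  -- the second moment is at most `M²`
  have hVM : V ≤ M ^ 2 := by
    have hlim : Tendsto (fun r : ℝ => (1 - r) * ‖tc h 0‖ ^ 2 + M ^ 2) (𝓝[<] (1 : ℝ))
        (𝓝 ((1 - 1) * ‖tc h 0‖ ^ 2 + M ^ 2)) := by
      refine Tendsto.mono_left ?_ nhdsWithin_le_nhds
      exact ((continuous_const.sub continuous_id).mul continuous_const |>.add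
        continuous_const).tendsto 1
    rw [sub_self, zero_mul, zero_add] at hlim
    refine le_of_tendsto_of_tendsto h2 hlim ?_
    filter_upwards [hev] with r hr
    have hr0 : 0 ≤ r := by linarith [hr.1]
    have s0 : Summable fun n : ℕ => r ^ n := summable_geometric_of_lt_one hr0 hr.2
    have s1 : Summable fun n : ℕ => ‖tc h n‖ ^ 2 * r ^ n := by
      refine Summable.of_nonneg_of_le (fun n => by positivity) (fun n => ?_) (s0.mul_left (M' ^ 2))
      exact mul_le_mul_of_nonneg_right (pow_le_pow_left₀ (norm_nonneg _) (hb n) 2) (by positivity)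
    have s2 : Summable fun n : ℕ => M ^ 2 * r ^ n := s0.mul_left _
    have e1 : ∑' n, ‖tc h n‖ ^ 2 * r ^ n =
        ‖tc h 0‖ ^ 2 * r ^ 0 + ∑' n, ‖tc h (n + 1)‖ ^ 2 * r ^ (n + 1) := s1.tsum_eq_zero_add
    have e2 : ∑' n, ‖tc h (n + 1)‖ ^ 2 * r ^ (n + 1) ≤ ∑' n : ℕ, M ^ 2 * r ^ n := by
      refine Summable.tsum_le_tsum (fun n => ?_) ((summable_nat_add_iff 1).2 s1) s2
      have a1 : ‖tc h (n + 1)‖ ^ 2 ≤ M ^ 2 := pow_le_pow_left₀ (norm_nonneg _) (hM _ (by omega)) 2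
      have a2 : r ^ (n + 1) ≤ r ^ n := pow_le_pow_of_le_one hr0 hr.2.le (by omega)
      exact mul_le_mul a1 a2 (by positivity) (by positivity)
    rw [tsum_mul_left, tsum_geometric_of_lt_one hr0 hr.2] at e2
    have h1r : 0 < 1 - r := by linarith [hr.2]
    calc (1 - r) * ∑' n, ‖tc h n‖ ^ 2 * r ^ n
        ≤ (1 - r) * (‖tc h 0‖ ^ 2 * r ^ 0 + M ^ 2 * (1 - r)⁻¹) := by
          rw [e1]
          exact mul_le_mul_of_nonneg_left (by linarith) h1r.le
      _ = (1 - r) * ‖tc h 0‖ ^ 2 + M ^ 2 := by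
          field_simp
  refine ⟨m, V, ?_, ?_, h3, hVM, h4, fun hall => ?_⟩
  · refine h1.congr' ?_
    filter_upwards [hev] with r hr
    have hz : ‖(r : ℂ)‖ < 1 := by
      rw [Complex.norm_real, Real.norm_eq_abs, abs_of_pos (by linarith [hr.1])]
      exact hr.2
    rw [(hasSum_tc hd hz).tsum_eq]
  · have hsq : Tendsto (fun r : ℝ => r ^ 2) (𝓝[<] (1 : ℝ)) (𝓝[<] (1 : ℝ)) := by
      refine tendsto_nhdsWithin_iff.2 ⟨?_, ?_⟩
      · have : Tendsto (fun r : ℝ => r ^ 2) (𝓝 (1 : ℝ)) (𝓝 (1 ^ 2)) := (continuous_pow 2).tendsto 1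
        rw [one_pow] at this
        exact this.mono_left nhdsWithin_le_nhds
      · filter_upwards [hev] with r hr
        have : r ^ 2 < 1 := pow_lt_one₀ (by linarith [hr.1]) hr.2 (by norm_num)
        exact this
    refine (h2.comp hsq).congr' ?_
    filter_upwards [hev] with r hr
    have hr0 : 0 ≤ r := by linarith [hr.1]
    have hs : Summable fun n => ‖tc h n‖ * r ^ n := by
      refine Summable.of_nonneg_of_le (fun n => by positivity) (fun n => ?_)
        ((summable_geometric_of_lt_one hr0 hr.2).mul_left M')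
      exact mul_le_mul_of_nonneg_right (hb n) (by positivity)
    have hp := parseval_ser hr0 hs
    have e : ∀ θ, ser (tc h) r θ = h (cp r θ) := fun θ =>
      (hasSum_ser hr0 hs θ).unique (hasSum_tc hd (by rw [norm_cp hr0]; exact hr.2))
    simp_rw [e] at hp
    show (1 - r ^ 2) * ∑' n, ‖tc h n‖ ^ 2 * (r ^ 2) ^ n = _
    rw [hp.tsum_eq]
  · -- the trivial solutions
    refine le_antisymm ?_ h3
    have hlim : Tendsto (fun r : ℝ => (1 - r) * ‖tc h 0‖ ^ 2 + ‖m‖ ^ 2) (𝓝[<] (1 : ℝ))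
        (𝓝 ((1 - 1) * ‖tc h 0‖ ^ 2 + ‖m‖ ^ 2)) := by
      refine Tendsto.mono_left ?_ nhdsWithin_le_nhds
      exact ((continuous_const.sub continuous_id).mul continuous_const |>.add
        continuous_const).tendsto 1
    rw [sub_self, zero_mul, zero_add] at hlim
    refine le_of_tendsto_of_tendsto h2 hlim ?_
    filter_upwards [hev] with r hr
    have hr0 : 0 ≤ r := by linarith [hr.1]
    have s0 : Summable fun n : ℕ => r ^ n := summable_geometric_of_lt_one hr0 hr.2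
    have s1 : Summable fun n : ℕ => ‖tc h n‖ ^ 2 * r ^ n := by
      refine Summable.of_nonneg_of_le (fun n => by positivity) (fun n => ?_) (s0.mul_left (M' ^ 2))
      exact mul_le_mul_of_nonneg_right (pow_le_pow_left₀ (norm_nonneg _) (hb n) 2) (by positivity)
    have e1 : ∑' n, ‖tc h n‖ ^ 2 * r ^ n =
        ‖tc h 0‖ ^ 2 * r ^ 0 + ∑' n, ‖tc h (n + 1)‖ ^ 2 * r ^ (n + 1) := s1.tsum_eq_zero_add
    have e2 : ∑' n, ‖tc h (n + 1)‖ ^ 2 * r ^ (n + 1) ≤ ∑' n : ℕ, ‖m‖ ^ 2 * r ^ n := by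
      refine Summable.tsum_le_tsum (fun n => ?_) ((summable_nat_add_iff 1).2 s1) (s0.mul_left _)
      rw [hall (n + 1) (by omega)]
      exact mul_le_mul_of_nonneg_left (pow_le_pow_of_le_one hr0 hr.2.le (by omega)) (by positivity)
    rw [tsum_mul_left, tsum_geometric_of_lt_one hr0 hr.2] at e2
    have h1r : 0 < 1 - r := by linarith [hr.2]
    calc (1 - r) * ∑' n, ‖tc h n‖ ^ 2 * r ^ n
        ≤ (1 - r) * (‖tc h 0‖ ^ 2 * r ^ 0 + ‖m‖ ^ 2 * (1 - r)⁻¹) := by
          rw [e1]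
          exact mul_le_mul_of_nonneg_left (by linarith) h1r.le
      _ = (1 - r) * ‖tc h 0‖ ^ 2 + ‖m‖ ^ 2 := by
          field_simp

/-! ### The Collatz map -/

/-- the Collatz map on the integers -/
def C (x : ℤ) : ℤ := if x % 2 = 0 then x / 2 else 3 * x + 1

lemma C_even (k : ℤ) : C (2 * k) = k := by
  unfold C
  rw [if_pos (by omega)]
  omega

lemma C_odd (k : ℤ) : C (2 * k + 1) = 6 * k + 4 := by
  unfold C
  rw [if_neg (by omega)]
  ring

/-- the trajectory of `x` reaches `1` -/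
def Reach (x : ℤ) : Prop := ∃ k : ℕ, C^[k] x = 1

lemma reach_C (x : ℤ) : Reach (C x) ↔ Reach x := by
  constructor
  · rintro ⟨k, hk⟩
    exact ⟨k + 1, by rw [Function.iterate_succ_apply]; exact hk⟩
  · rintro ⟨k, hk⟩
    cases k with
    | zero =>
      rw [Function.iterate_zero_apply] at hk
      subst hk
      refine ⟨2, ?_⟩
      decide
    | succ k => exact ⟨k, by rw [Function.iterate_succ_apply] at hk; exact hk⟩

open Classical in
/-- the indicator function of the set of the positive integers whose trajectory reaches `1` -/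
noncomputable def ind (n : ℕ) : ℂ := if 1 ≤ n ∧ Reach (n : ℤ) then 1 else 0

lemma ind_norm (n : ℕ) : ‖ind n‖ ≤ 1 := by
  unfold ind
  split_ifs
  · rw [norm_one]
  · rw [norm_zero]; norm_num

lemma ind_cinv : CInv ind where
  even n := by
    unfold ind
    have h : (1 ≤ 2 * n ∧ Reach ((2 * n : ℕ) : ℤ)) ↔ (1 ≤ n ∧ Reach (n : ℤ)) := by
      have e : C ((2 * n : ℕ) : ℤ) = n := by push_cast; exact C_even n
      rw [← reach_C ((2 * n : ℕ) : ℤ), e]
      constructor
      · rintro ⟨a, b⟩; exact ⟨by omega, b⟩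
      · rintro ⟨a, b⟩; exact ⟨by omega, b⟩
    by_cases hh : 1 ≤ n ∧ Reach (n : ℤ)
    · rw [if_pos hh, if_pos (h.2 hh)]
    · rw [if_neg hh, if_neg (fun x => hh (h.1 x))]
  odd n := by
    unfold ind
    have h : (1 ≤ 3 * n + 2 ∧ Reach ((3 * n + 2 : ℕ) : ℤ)) ↔
        (1 ≤ 2 * n + 1 ∧ Reach ((2 * n + 1 : ℕ) : ℤ)) := by
      have e1 : C ((2 * n + 1 : ℕ) : ℤ) = 6 * n + 4 := by push_cast; exact C_odd n
      have e2 : C (6 * n + 4 : ℤ) = 3 * n + 2 := by
        have := C_even (3 * n + 2)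
        rw [show (2 * (3 * (n : ℤ) + 2)) = 6 * n + 4 by ring] at this
        exact this
      rw [← reach_C ((2 * n + 1 : ℕ) : ℤ), e1, ← reach_C (6 * n + 4 : ℤ), e2]
      push_cast
      constructor
      · rintro ⟨a, b⟩; exact ⟨by omega, b⟩
      · rintro ⟨a, b⟩; exact ⟨by omega, b⟩
    by_cases hh : 1 ≤ 2 * n + 1 ∧ Reach ((2 * n + 1 : ℕ) : ℤ)
    · rw [if_pos hh, if_pos (h.2 hh)]
    · rw [if_neg hh, if_neg (fun x => hh (h.1 x))]

/-- coefficients are constant along the trajectories -/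
lemma cinv_reach {c : ℕ → ℂ} (hc : CInv c) : ∀ k : ℕ, ∀ n : ℕ, 1 ≤ n → C^[k] (n : ℤ) = 1 →
    c n = c 1 := by
  intro k
  induction k with
  | zero =>
    intro n _ h
    rw [Function.iterate_zero_apply] at h
    have : n = 1 := by exact_mod_cast h
    rw [this]
  | succ k ih =>
    intro n hn h
    rw [Function.iterate_succ_apply] at h
    rcases Nat.even_or_odd' n with ⟨j, rfl | rfl⟩
    · rw [show C ((2 * j : ℕ) : ℤ) = (j : ℕ) by push_cast; exact C_even j] at h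
      rw [hc.even, ih j (by omega) h]
    · rw [show C ((2 * j + 1 : ℕ) : ℤ) = ((6 * j + 4 : ℕ) : ℤ) by push_cast; exact C_odd j] at h
      rw [← hc.odd, ← ih (6 * j + 4) (by omega) h, ← hc.even]
      congr 1
      ring

lemma triv_iff {h : ℂ → ℂ} (hd : DifferentiableOn ℂ h (Metric.ball 0 1)) {m : ℂ} :
    (∀ n, 1 ≤ n → tc h n = m) ↔ ∃ c₀ : ℂ, ∀ z : ℂ, ‖z‖ < 1 → h z = c₀ + m * (z / (1 - z)) := by
  constructor
  · exact fun hm => Pool.Agent.H723R2.BMGrow.triv hd hm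
  · rintro ⟨c₀, hc₀⟩
    have key : ∀ n, tc h n - (if n = 0 then c₀ else m) = 0 := by
      refine coeff_zero (e := fun n => tc h n - (if n = 0 then c₀ else m)) fun w _ hw => ?_
      have s1 := hasSum_tc hd hw
      have s2 : HasSum (fun n : ℕ => m * w * w ^ n) (m * w * (1 - w)⁻¹) :=
        (hasSum_geometric_of_norm_lt_one hw).mul_left _
      have s3 : HasSum (fun n : ℕ => (fun n : ℕ => (if n = 0 then c₀ else m) * w ^ n) (n + 1))
          (m * w * (1 - w)⁻¹) := by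
        refine hs_congr s2 (fun n => ?_)
        simp only [Nat.add_eq_zero_iff, one_ne_zero, and_false, if_false]
        ring
      have s4 := (hasSum_nat_add_iff (f := fun n : ℕ => (if n = 0 then c₀ else m) * w ^ n)
        1).mp s3
      simp only [Finset.range_one, Finset.sum_singleton, if_true, pow_zero, mul_one] at s4
      have s5 := s1.sub s4
      have e : h w - (m * w * (1 - w)⁻¹ + c₀) = 0 := by
        rw [hc₀ w hw, div_eq_mul_inv]
        ring
      rw [e] at s5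
      refine hs_congr s5 fun n => ?_
      ring
    intro n hn
    have := key n
    rw [if_neg (by omega)] at this
    exact sub_eq_zero.1 this

end Pool.Agent.X108.BM
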